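import Pool.Agent.TH674.JK.Step2

/-!
# Traces on Johnson kernels of finite-index subgroups: assembly
-/

set_option autoImplicit false

namespace Pool.Agent.TH674.JK

variable {P : Type} [Group P]

theorem top2 (K : Subgroup P) (hK : K.Characteristic)
    (G H : Subgroup (MulAut P)) (hHG : H ≤ G) (hfin : H.relIndex G ≠ 0) (h1 : PK K G H 1)
    (hW : ∀ W : Subgroup (MulAut P), W.relIndex G ≠ 0 → TT (K.lowerCentralSeries 1) ≤ W →
      ∃ C : Subgroup P, C.Characteristic ∧ C.FiniteIndex ∧ ∀ ψ ∈ G, Triv C ψ → ψ ∈ W) :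
    PC G H 0 := by
  obtain ⟨K1, hK1c, hK1f, hK1⟩ := h1
  have hn : (TT (K.lowerCentralSeries 1)).Normal := TT_normal _ inferInstance
  have hfi : (TT K1).FiniteIndex := TT_finiteIndex K1 hK1c hK1f
  have hrel : (H ⊓ TT K1).relIndex G ≠ 0 := by
    refine Subgroup.relIndex_inf_ne_zero hfin ?_
    have hn1 : (TT K1).Normal := TT_normal _ hK1c
    exact ne_zero_of_dvd_ne_zero hfi.index_ne_zero (Subgroup.relIndex_dvd_index_of_normal _ _)
  have hrelW : ((H ⊓ TT K1) ⊔ TT (K.lowerCentralSeries 1)).relIndex G ≠ 0 :=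
    ne_zero_of_dvd_ne_zero hrel (Subgroup.relIndex_dvd_of_le_left G le_sup_left)
  obtain ⟨K', hK'c, hK'f, hK'⟩ := hW _ hrelW le_sup_right
  refine ⟨K1 ⊓ K', inf_char _ _ hK1c hK'c, inferInstance, ?_⟩
  intro ψ hψG hψK _
  have hψ1 : ψ ∈ TT K1 := fun x => (hψK x).1
  have hψW := hK' ψ hψG (fun x => (hψK x).2)
  rw [Subgroup.mem_sup_of_normal_right] at hψW
  obtain ⟨a, ha, t, ht, rfl⟩ := hψW
  have htt : t = a⁻¹ * (a * t) := by group
  have htG : t ∈ G := by
    rw [htt]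
    exact G.mul_mem (G.inv_mem (hHG ha.1)) hψG
  have htK : t ∈ TT K1 := by
    rw [htt]
    exact (TT K1).mul_mem ((TT K1).inv_mem ha.2) hψ1
  exact H.mul_mem ha.1 (hK1 t htG htK ht)

end Pool.Agent.TH674.JK
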