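import Pool.Agent.TH674.JK.Res
import Pool.Agent.TH610.CSP.Sep

/-!
# One step down the Johnson filtration of a finitely generated group
-/

set_option autoImplicit false

namespace Pool.Agent.TH674.JK

open Pool.Agent.Helper111.EN
open scoped IsMulCommutative

variable {P : Type} [Group P]

/-- `ψ` acts trivially on `P / K` -/
def Triv (K : Subgroup P) (ψ : MulAut P) : Prop := ∀ x : P, ψ x * x⁻¹ ∈ K

/-- the automorphisms which act trivially on `P / K` -/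
def TT (K : Subgroup P) : Subgroup (MulAut P) where
  carrier := {ψ | Triv K ψ}
  one_mem' := fun x => by
    rw [MulAut.one_apply, mul_inv_cancel]
    exact K.one_mem
  mul_mem' := by
    intro ψ φ hψ hφ x
    have h := K.mul_mem (hψ (φ x)) (hφ x)
    rwa [← mul_assoc, inv_mul_cancel_right] at h
  inv_mem' := by
    intro ψ hψ x
    have h := K.inv_mem (hψ (ψ⁻¹ x))
    rwa [MulAut.apply_inv_self, mul_inv_rev, inv_inv] at h

theorem mem_TT (K : Subgroup P) (ψ : MulAut P) : ψ ∈ TT K ↔ Triv K ψ := Iff.rfl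

/-- on `G` and on the kernel of the action on `P / gam P c`, the subgroup `H` contains a
congruence subgroup -/
def PC (G H : Subgroup (MulAut P)) (c : ℕ) : Prop :=
  ∃ K : Subgroup P, K.Characteristic ∧ K.FiniteIndex ∧
    ∀ ψ ∈ G, Triv K ψ → Triv (gam P c) ψ → ψ ∈ H

theorem inf_char (K L : Subgroup P) (hK : K.Characteristic) (hL : L.Characteristic) :
    (K ⊓ L).Characteristic := by
  rw [Subgroup.characteristic_iff_le_comap] at *
  intro φ x hx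
  exact ⟨hK φ hx.1, hL φ hx.2⟩

theorem step [Group.FG P] (c : ℕ) (hc : 1 ≤ c) (G H : Subgroup (MulAut P)) (e : ℕ) (he : 0 < e)
    (hGH : ∀ a ∈ G, a ^ e ∈ H) (h : PC G H (c + 1)) : PC G H c := by
  obtain ⟨K1, hK1c, hK1f, hK1⟩ := h
  obtain ⟨S, hS⟩ := (Group.fg_def.1 (inferInstance : Group.FG P))
  obtain ⟨q, hq⟩ : ∃ q : P →* P ⧸ gam P (c + 1), q = QuotientGroup.mk' _ := ⟨_, rfl⟩
  have hqs : Function.Surjective q := hq ▸ QuotientGroup.mk'_surjective _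
  have hqk : ∀ x, q x = 1 ↔ x ∈ gam P (c + 1) := by
    intro x
    rw [hq, ← MonoidHom.mem_ker, QuotientGroup.ker_mk']
  have hcen : ∀ y ∈ gam P c, q y ∈ Subgroup.center (P ⧸ gam P (c + 1)) :=
    fun y hy => gam_central c hqs hqk hy
  have hnil : Group.IsNilpotent (P ⧸ gam P (c + 1)) := quot_nil c
  have hfg : Group.FG (P ⧸ gam P (c + 1)) := QuotientGroup.fg _
  have hZfg : Group.FG (Subgroup.center (P ⧸ gam P (c + 1))) := by
    have hNS := NSc.NS_of_nilpotent_fg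
      (⊤ : Subgroup (P ⧸ gam P (c + 1))) (Group.isNilpotent_top.2 hnil) hfg.out
    exact (Group.fg_iff_subgroup_fg _).2 (hNS _ le_top)
  have hcomm : ∀ (z g : P ⧸ gam P (c + 1)), z ∈ Subgroup.center (P ⧸ gam P (c + 1)) →
      g * z = z * g := fun z g hz => Subgroup.mem_center_iff.mp hz g
  -- the homomorphism of a `ψ` which acts trivially modulo `gam P c`
  have hmul : ∀ ψ : MulAut P, Triv (gam P c) ψ → ∀ x y : P,
      q (ψ (x * y) * (x * y)⁻¹) = q (ψ x * x⁻¹) * q (ψ y * y⁻¹) := by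
    intro ψ hψ x y
    have h1 : ψ (x * y) * (x * y)⁻¹ = ψ x * (ψ y * y⁻¹) * x⁻¹ := by
      rw [map_mul]
      group
    rw [h1, map_mul, map_mul, hcomm _ (q (ψ x)) (hcen _ (hψ y)), mul_assoc,
      ← hcomm _ (q (ψ x) * q x⁻¹) (hcen _ (hψ y)), map_mul q (ψ x)]
  obtain ⟨dl, hdl⟩ : ∃ dl : ∀ ψ : TT (gam P c), P →* Subgroup.center (P ⧸ gam P (c + 1)),
      ∀ ψ x, ((dl ψ x : Subgroup.center (P ⧸ gam P (c + 1))) : P ⧸ gam P (c + 1)) =
        q (ψ.1 x * x⁻¹) := by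
    refine ⟨fun ψ => MonoidHom.mk' (fun x => ⟨q (ψ.1 x * x⁻¹), hcen _ (ψ.2 x)⟩) ?_,
      fun ψ x => rfl⟩
    intro x y
    exact Subtype.ext (hmul ψ.1 ψ.2 x y)
  have hdl1 : ∀ (ψ : TT (gam P c)) (u : P), u ∈ gam P c → dl ψ u = 1 := by
    intro ψ u hu
    have h1 : u ∈ commutator P := by
      rw [← Subgroup.top_lowerCentralSeries_one]
      exact Subgroup.lowerCentralSeries_antitone _ hc hu
    exact Abelianization.commutator_subset_ker (dl ψ) h1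
  -- the map `δ`
  obtain ⟨δ, hδ⟩ : ∃ δ : TT (gam P c) →* (S → Subgroup.center (P ⧸ gam P (c + 1))),
      ∀ ψ s, δ ψ s = dl ψ s := by
    refine ⟨MonoidHom.mk' (fun ψ s => dl ψ s) ?_, fun ψ s => rfl⟩
    intro ψ φ
    funext s
    show dl (ψ * φ) s = dl ψ s * dl φ s
    have h1 : dl ψ (φ.1 s) = dl ψ s := by
      have h2 : φ.1 (s : P) = (φ.1 s * (s : P)⁻¹) * s := by group
      rw [h2, map_mul, hdl1 ψ _ (φ.2 s), one_mul]
    rw [← h1]
    apply Subtype.ext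
    rw [Subgroup.coe_mul, hdl, hdl, hdl, ← map_mul]
    congr 1
    show ψ.1 (φ.1 s) * (s : P)⁻¹ = _
    group
  -- the two subgroups
  obtain ⟨A, hA⟩ : ∃ A : Subgroup (S → Subgroup.center (P ⧸ gam P (c + 1))),
      A = ((G ⊓ TT K1).subgroupOf (TT (gam P c))).map δ := ⟨_, rfl⟩
  obtain ⟨L, hL⟩ : ∃ L : Subgroup (S → Subgroup.center (P ⧸ gam P (c + 1))),
      L = ((G ⊓ TT K1 ⊓ H).subgroupOf (TT (gam P c))).map δ := ⟨_, rfl⟩
  have hLA : L ≤ A := by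
    rw [hL, hA]
    refine Subgroup.map_mono ?_
    intro ψ hψ
    rw [Subgroup.mem_subgroupOf] at hψ ⊢
    exact hψ.1
  have hAe : ∀ a ∈ A, a ^ e ∈ L := by
    intro a ha
    rw [hA] at ha
    obtain ⟨ψ, hψ, rfl⟩ := ha
    have hψ' : (ψ : MulAut P) ∈ G ⊓ TT K1 := Subgroup.mem_subgroupOf.1 hψ
    rw [hL, ← map_pow]
    refine Subgroup.mem_map_of_mem δ ?_
    rw [Subgroup.mem_subgroupOf, Subgroup.coe_pow]
    exact ⟨Subgroup.pow_mem _ hψ' e, hGH _ hψ'.1⟩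
  obtain ⟨M, hM, hsep⟩ := Pool.Agent.TH610.CSP.t_sep S (Subgroup.center (P ⧸ gam P (c + 1)))
    A L e he hLA hAe
  obtain ⟨K2, hK2c, hK2f, hK2⟩ := res (P := P) c M hM
  refine ⟨K1 ⊓ K2, inf_char _ _ hK1c hK2c, inferInstance, ?_⟩
  intro ψ hψG hψK hψc
  have hψ1 : ψ ∈ TT K1 := fun x => (hψK x).1
  have hy : ∀ s : S, ∃ y ∈ gam P c, (ψ s * (s : P)⁻¹) * (y ^ M)⁻¹ ∈ gam P (c + 1) :=
    fun s => hK2 _ (hψK s).2 (hψc s)
  choose y hyc hyM using hy
  obtain ⟨Y, hY⟩ : ∃ Y : S → Subgroup.center (P ⧸ gam P (c + 1)),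
      ∀ s, (Y s : P ⧸ gam P (c + 1)) = q (y s) := ⟨fun s => ⟨q (y s), hcen _ (hyc s)⟩, fun s => rfl⟩
  have hYM : δ ⟨ψ, hψc⟩ = Y ^ M := by
    funext s
    rw [hδ, Pi.pow_apply]
    apply Subtype.ext
    rw [hdl, Subgroup.coe_pow, hY, ← map_pow]
    have h1 := (hqk _).2 (hyM s)
    rwa [map_mul, map_inv, mul_inv_eq_one] at h1
  have hYA : Y ^ M ∈ A := by
    rw [← hYM, hA]
    refine Subgroup.mem_map_of_mem δ ?_
    rw [Subgroup.mem_subgroupOf]
    exact ⟨hψG, hψ1⟩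
  have hYL := hsep Y hYA
  rw [← hYM, hL] at hYL
  obtain ⟨φ, hφ, hφδ⟩ := hYL
  have hφ' : (φ : MulAut P) ∈ G ⊓ TT K1 ⊓ H := Subgroup.mem_subgroupOf.1 hφ
  -- the difference
  obtain ⟨χ, hχ⟩ : ∃ χ : TT (gam P c), χ = φ⁻¹ * ⟨ψ, hψc⟩ := ⟨_, rfl⟩
  have hχδ : δ χ = 1 := by
    rw [hχ, map_mul, map_inv, hφδ, inv_mul_cancel]
  have hχ1 : dl χ = 1 := by
    refine MonoidHom.eq_of_eqOn_dense hS ?_
    intro s hs
    have h1 := congrFun hχδ ⟨s, hs⟩
    rw [hδ] at h1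
    exact h1
  have hχc : Triv (gam P (c + 1)) (χ : MulAut P) := by
    intro x
    rw [← hqk, ← hdl, hχ1]
    rfl
  have hχψ : (χ : MulAut P) = (φ : MulAut P)⁻¹ * ψ := by
    rw [hχ]
    rfl
  have hχH : (χ : MulAut P) ∈ H := by
    refine hK1 _ ?_ ?_ hχc
    · rw [hχψ]
      exact G.mul_mem (G.inv_mem hφ'.1.1) hψG
    · rw [← mem_TT, hχψ]
      exact (TT K1).mul_mem ((TT K1).inv_mem hφ'.1.2) hψ1
  have h2 : ψ = (φ : MulAut P) * (χ : MulAut P) := by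
    rw [hχψ, mul_inv_cancel_left]
  rw [h2]
  exact H.mul_mem hφ'.2 hχH

/-- from any level down to the Torelli group -/
theorem down [Group.FG P] (G H : Subgroup (MulAut P)) (e : ℕ) (he : 0 < e)
    (hGH : ∀ a ∈ G, a ^ e ∈ H) (c : ℕ) (h : PC G H c) : PC G H 1 := by
  induction c with
  | zero =>
    obtain ⟨K, h1, h2, h3⟩ := h
    exact ⟨K, h1, h2, fun ψ hψ hK _ => h3 ψ hψ hK (fun x => Subgroup.mem_top _)⟩
  | succ c ih =>
    rcases Nat.eq_zero_or_pos c with rfl | hc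
    · exact h
    · exact ih (step c hc G H e he hGH h)

end Pool.Agent.TH674.JK
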