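import Pool.Agent.TH674.JK.Top

/-!
# One step down the Johnson filtration of a characteristic finite-index subgroup
-/

set_option autoImplicit false

namespace Pool.Agent.TH674.JK

open Pool.Agent.Helper111.EN
open scoped IsMulCommutative commutatorElement

variable {P : Type} [Group P]

/-- on `G` and on the kernel of the action on `P / γ_c(K)`, the subgroup `H` contains a
congruence subgroup -/
def PK (K : Subgroup P) (G H : Subgroup (MulAut P)) (c : ℕ) : Prop :=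
  ∃ C : Subgroup P, C.Characteristic ∧ C.FiniteIndex ∧
    ∀ ψ ∈ G, Triv C ψ → Triv (K.lowerCentralSeries c) ψ → ψ ∈ H

theorem res_rel [Group.FG P] (K : Subgroup P) (hKf : K.FiniteIndex) (c M : ℕ) (hM : 0 < M) :
    ∃ C : Subgroup P, C.Characteristic ∧ C.FiniteIndex ∧ ∀ x ∈ C, x ∈ K.lowerCentralSeries c →
      ∃ y ∈ K.lowerCentralSeries c, x * (y ^ M)⁻¹ ∈ K.lowerCentralSeries (c + 1) := by
  have hfg : Group.FG K := Subgroup.fg_of_index_ne_zero K
  obtain ⟨L, hL1, hL2, hL3⟩ := res (P := K) c M hM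
  have hLf : (L.map K.subtype).FiniteIndex := by
    refine ⟨?_⟩
    rw [Subgroup.index_map_subtype]
    exact mul_ne_zero hL2.index_ne_zero hKf.index_ne_zero
  obtain ⟨C, hC1, hC2, hC3⟩ := char_core (L.map K.subtype).normalCore
  refine ⟨C, hC1, hC2, fun x hx hxc => ?_⟩
  obtain ⟨l, hl, hlx⟩ := Subgroup.normalCore_le _ (hC3 hx)
  subst hlx
  have hlc : l ∈ gam K c := by
    rw [← Subgroup.top_subtype_lowerCentralSeries] at hxc
    obtain ⟨l', hl', e⟩ := hxc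
    rwa [← K.subtype_injective e]
  obtain ⟨y, hy, hxy⟩ := hL3 l hl hlc
  refine ⟨y, ?_, ?_⟩
  · rw [← Subgroup.top_subtype_lowerCentralSeries]
    exact ⟨y, hy, rfl⟩
  · rw [← Subgroup.top_subtype_lowerCentralSeries]
    exact ⟨_, hxy, rfl⟩

/-- the elements on which `ψ` is trivial modulo a normal subgroup -/
def fixm (R : Subgroup P) (hR : R.Normal) (ψ : MulAut P) : Subgroup P where
  carrier := {x | ψ x * x⁻¹ ∈ R}
  one_mem' := by
    show ψ 1 * 1⁻¹ ∈ R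
    rw [map_one, inv_one, mul_one]
    exact R.one_mem
  mul_mem' := by
    intro x y hx hy
    show ψ (x * y) * (x * y)⁻¹ ∈ R
    have h1 : ψ (x * y) * (x * y)⁻¹ = (ψ x * x⁻¹) * (x * (ψ y * y⁻¹) * x⁻¹) := by
      rw [map_mul]
      group
    rw [h1]
    exact R.mul_mem hx (hR.conj_mem _ hy x)
  inv_mem' := by
    intro x hx
    show ψ x⁻¹ * x⁻¹⁻¹ ∈ R
    have h1 : ψ x⁻¹ * x⁻¹⁻¹ = x⁻¹ * (ψ x * x⁻¹)⁻¹ * x⁻¹⁻¹ := by
      rw [map_inv]
      group
    rw [h1]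
    exact hR.conj_mem _ (R.inv_mem hx) x⁻¹

theorem comm_lemma {Q : Type} [Group Q] {A X B Y : Q} (hAX : Commute A X) (hAY : Commute A Y)
    (hAB : Commute A B) (hBX : Commute B X) (hBY : Commute B Y) :
    ⁅A * X, B * Y⁆ = ⁅X, Y⁆ := by
  have h1 : A * X * (B * Y) = (A * B) * (X * Y) := by
    rw [mul_assoc, ← mul_assoc X B Y, ← hBX.eq, mul_assoc B X Y, ← mul_assoc]
  have h2 : B * Y * (A * X) = (A * B) * (Y * X) := by
    rw [mul_assoc, ← mul_assoc Y A X, ← hAY.eq, mul_assoc A Y X, ← mul_assoc, ← hAB.eq]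
  have hc : Commute (A * B) ((X * Y) * (Y * X)⁻¹) := by
    have e1 : Commute (A * B) X := hAX.mul_left hBX
    have e2 : Commute (A * B) Y := hAY.mul_left hBY
    exact (e1.mul_right e2).mul_right ((e2.mul_right e1).inv_right)
  have h3 : ⁅A * X, B * Y⁆ = (A * X * (B * Y)) * (B * Y * (A * X))⁻¹ := by
    rw [commutatorElement_def]
    group
  have h4 : ⁅X, Y⁆ = (X * Y) * (Y * X)⁻¹ := by
    rw [commutatorElement_def]
    group
  rw [h3, h4, h1, h2, mul_inv_rev (A * B), ← mul_assoc, mul_assoc (A * B), hc.eq,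
    mul_inv_cancel_right]

theorem lcs_normal (K : Subgroup P) (hK : K.Normal) (c : ℕ) : (K.lowerCentralSeries c).Normal := by
  induction c with
  | zero => exact hK
  | succ c ih =>
    rw [Subgroup.lowerCentralSeries_succ]
    exact Subgroup.commutator_normal _ _

/-- `ψ` trivial modulo `γ_c(K)` is trivial modulo `γ_(c+1)(K)` on `γ_c(K)` -/
theorem fix_gam (K : Subgroup P) (hK : K.Normal) (c : ℕ) (hc : 1 ≤ c) (ψ : MulAut P)
    (hψ : Triv (K.lowerCentralSeries c) ψ) {u : P} (hu : u ∈ K.lowerCentralSeries c) :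
    ψ u * u⁻¹ ∈ K.lowerCentralSeries (c + 1) := by
  have hR : (K.lowerCentralSeries (c + 1)).Normal := lcs_normal K hK (c + 1)
  have hcK : K.lowerCentralSeries c ≤ K := by
    have := K.lowerCentralSeries_antitone (Nat.zero_le c)
    rwa [Subgroup.lowerCentralSeries_zero] at this
  have h1 : K.lowerCentralSeries 1 ≤ fixm (K.lowerCentralSeries (c + 1)) hR ψ := by
    rw [Subgroup.lowerCentralSeries_succ, Subgroup.lowerCentralSeries_zero, Subgroup.commutator_le]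
    intro x hx y hy
    show ψ ⁅x, y⁆ * ⁅x, y⁆⁻¹ ∈ K.lowerCentralSeries (c + 1)
    obtain ⟨q, hq⟩ : ∃ q : P →* P ⧸ K.lowerCentralSeries (c + 1), q = QuotientGroup.mk' _ :=
      ⟨_, rfl⟩
    have hqk : ∀ x, q x = 1 ↔ x ∈ K.lowerCentralSeries (c + 1) := by
      intro x
      rw [hq, ← MonoidHom.mem_ker, QuotientGroup.ker_mk']
    have hcom : ∀ u ∈ K.lowerCentralSeries c, ∀ v ∈ K, Commute (q u) (q v) := by
      intro u hu v hv
      have h1 : ⁅u, v⁆ ∈ K.lowerCentralSeries (c + 1) := Subgroup.commutator_mem_commutator hu hv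
      have h2 := (hqk _).mpr h1
      rwa [map_commutatorElement, commutatorElement_eq_one_iff_commute] at h2
    obtain ⟨a, ha, hax⟩ : ∃ a ∈ K.lowerCentralSeries c, ψ x = a * x :=
      ⟨ψ x * x⁻¹, hψ x, by group⟩
    obtain ⟨b, hb, hby⟩ : ∃ b ∈ K.lowerCentralSeries c, ψ y = b * y :=
      ⟨ψ y * y⁻¹, hψ y, by group⟩
    rw [← hqk, map_mul, map_inv, mul_inv_eq_one, map_commutatorElement, map_commutatorElement,
      map_commutatorElement, hax, hby, map_mul, map_mul]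
    exact comm_lemma (hcom a ha x hx) (hcom a ha y hy) (hcom a ha b (hcK hb)) (hcom b hb x hx)
      (hcom b hb y hy)
  exact h1 (K.lowerCentralSeries_antitone hc hu)

theorem step2 [Group.FG P] (K : Subgroup P) (hK : K.Normal) (hKf : K.FiniteIndex)
    (c : ℕ) (hc : 1 ≤ c) (G H : Subgroup (MulAut P)) (e : ℕ) (he : 0 < e)
    (hGH : ∀ a ∈ G, a ^ e ∈ H) (h : PK K G H (c + 1)) : PK K G H c := by
  obtain ⟨K1, hK1c, hK1f, hK1⟩ := h
  obtain ⟨S, hS⟩ := (Group.fg_def.1 (inferInstance : Group.FG P))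
  have hR : (K.lowerCentralSeries (c + 1)).Normal := lcs_normal K hK (c + 1)
  have hcK : K.lowerCentralSeries c ≤ K := by
    have := K.lowerCentralSeries_antitone (Nat.zero_le c)
    rwa [Subgroup.lowerCentralSeries_zero] at this
  obtain ⟨q, hq⟩ : ∃ q : P →* P ⧸ K.lowerCentralSeries (c + 1), q = QuotientGroup.mk' _ :=
    ⟨_, rfl⟩
  have hqk : ∀ x, q x = 1 ↔ x ∈ K.lowerCentralSeries (c + 1) := by
    intro x
    rw [hq, ← MonoidHom.mem_ker, QuotientGroup.ker_mk']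
  have hcom : ∀ u ∈ K.lowerCentralSeries c, ∀ v ∈ K, Commute (q u) (q v) := by
    intro u hu v hv
    have h1 : ⁅u, v⁆ ∈ K.lowerCentralSeries (c + 1) := Subgroup.commutator_mem_commutator hu hv
    have h2 := (hqk _).mpr h1
    rwa [map_commutatorElement, commutatorElement_eq_one_iff_commute] at h2
  -- the abelian group `D = γ_c(K) / γ_(c+1)(K)`
  obtain ⟨D, hD⟩ : ∃ D : Subgroup (P ⧸ K.lowerCentralSeries (c + 1)),
      D = (K.lowerCentralSeries c).map q := ⟨_, rfl⟩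
  have hDm : ∀ u ∈ K.lowerCentralSeries c, q u ∈ D := by
    intro u hu
    rw [hD]
    exact Subgroup.mem_map_of_mem q hu
  have hDcom : ∀ a ∈ D, ∀ b ∈ D, a * b = b * a := by
    intro a ha b hb
    rw [hD] at ha hb
    obtain ⟨u, hu, rfl⟩ := ha
    obtain ⟨v, hv, rfl⟩ := hb
    exact (hcom u hu v (hcK hv)).eq
  have hDi : IsMulCommutative D := ⟨⟨fun a b => Subtype.ext (hDcom _ a.2 _ b.2)⟩⟩
  have hKfg : Group.FG K := Subgroup.fg_of_index_ne_zero K
  have hDfg : Group.FG D := by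
    have h1 : (K.map q).FG := by
      rw [← Group.fg_iff_subgroup_fg]
      exact Group.fg_of_surjective (q.subgroupMap_surjective K)
    have h2 : Group.IsNilpotent (K.map q) := by
      rw [Subgroup.isNilpotent_iff_lowerCentralSeries]
      refine ⟨c + 1, ?_⟩
      rw [← Subgroup.map_lowerCentralSeries, eq_bot_iff]
      rintro y ⟨x, hx, rfl⟩
      exact Subgroup.mem_bot.mpr ((hqk x).mpr hx)
    have hNS := NSc.NS_of_nilpotent_fg (K.map q) h2 h1
    refine (Group.fg_iff_subgroup_fg _).2 (hNS _ ?_)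
    rw [hD]
    exact Subgroup.map_mono hcK
  -- the map `δ`
  obtain ⟨δ, hδ⟩ : ∃ δ : TT (K.lowerCentralSeries c) →* (S → D),
      ∀ ψ s, ((δ ψ s : D) : P ⧸ K.lowerCentralSeries (c + 1)) =
        q ((ψ : MulAut P) s * (s : P)⁻¹) := by
    refine ⟨MonoidHom.mk' (fun ψ s => ⟨q ((ψ : MulAut P) s * (s : P)⁻¹), hDm _ (ψ.2 s)⟩) ?_,
      fun ψ s => rfl⟩
    intro ψ φ
    funext s
    apply Subtype.ext
    show q ((ψ : MulAut P) ((φ : MulAut P) s) * (s : P)⁻¹) =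
      q ((ψ : MulAut P) s * (s : P)⁻¹) * q ((φ : MulAut P) s * (s : P)⁻¹)
    obtain ⟨u, hu, hus⟩ : ∃ u ∈ K.lowerCentralSeries c, (φ : MulAut P) s = u * s :=
      ⟨(φ : MulAut P) s * (s : P)⁻¹, φ.2 s, by group⟩
    have h1 : (ψ : MulAut P) ((φ : MulAut P) s) * (s : P)⁻¹ =
        ((ψ : MulAut P) u * u⁻¹) * (u * ((ψ : MulAut P) s * (s : P)⁻¹)) := by
      rw [hus, map_mul]
      group
    have h2 : (φ : MulAut P) s * (s : P)⁻¹ = u := by
      rw [hus]
      group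
    rw [h1, h2, map_mul, (hqk _).2 (fix_gam K hK c hc _ ψ.2 hu), one_mul, map_mul]
    exact hDcom _ (hDm u hu) _ (hDm _ (ψ.2 s))
  -- the two subgroups
  obtain ⟨A, hA⟩ : ∃ A : Subgroup (S → D),
      A = ((G ⊓ TT K1).subgroupOf (TT (K.lowerCentralSeries c))).map δ := ⟨_, rfl⟩
  obtain ⟨L, hL⟩ : ∃ L : Subgroup (S → D),
      L = ((G ⊓ TT K1 ⊓ H).subgroupOf (TT (K.lowerCentralSeries c))).map δ := ⟨_, rfl⟩
  have hLA : L ≤ A := by
    rw [hL, hA]
    refine Subgroup.map_mono ?_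
    intro ψ hψ
    rw [Subgroup.mem_subgroupOf] at hψ ⊢
    exact hψ.1
  have hAe : ∀ a ∈ A, a ^ e ∈ L := by
    intro a ha
    rw [hA] at ha
    obtain ⟨ψ, hψ, rfl⟩ := ha
    have hψ' : (ψ : MulAut P) ∈ G ⊓ TT K1 := Subgroup.mem_subgroupOf.1 hψ
    rw [hL, ← map_pow]
    refine Subgroup.mem_map_of_mem δ ?_
    rw [Subgroup.mem_subgroupOf, Subgroup.coe_pow]
    exact ⟨Subgroup.pow_mem _ hψ' e, hGH _ hψ'.1⟩
  obtain ⟨M, hM, hsep⟩ := Pool.Agent.TH610.CSP.t_sep S D A L e he hLA hAe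
  obtain ⟨K2, hK2c, hK2f, hK2⟩ := res_rel K hKf c M hM
  refine ⟨K1 ⊓ K2, inf_char _ _ hK1c hK2c, inferInstance, ?_⟩
  intro ψ hψG hψK hψc
  have hψ1 : ψ ∈ TT K1 := fun x => (hψK x).1
  have hy : ∀ s : S, ∃ y ∈ K.lowerCentralSeries c,
      (ψ s * (s : P)⁻¹) * (y ^ M)⁻¹ ∈ K.lowerCentralSeries (c + 1) :=
    fun s => hK2 _ (hψK s).2 (hψc s)
  choose y hyc hyM using hy
  obtain ⟨Y, hY⟩ : ∃ Y : S → D,
      ∀ s, ((Y s : D) : P ⧸ K.lowerCentralSeries (c + 1)) = q (y s) :=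
    ⟨fun s => ⟨q (y s), hDm _ (hyc s)⟩, fun s => rfl⟩
  have hYM : δ ⟨ψ, hψc⟩ = Y ^ M := by
    funext s
    rw [Pi.pow_apply]
    apply Subtype.ext
    rw [hδ, Subgroup.coe_pow, hY, ← map_pow]
    have h1 := (hqk _).2 (hyM s)
    rwa [map_mul, map_inv, mul_inv_eq_one] at h1
  have hYA : Y ^ M ∈ A := by
    rw [← hYM, hA]
    refine Subgroup.mem_map_of_mem δ ?_
    rw [Subgroup.mem_subgroupOf]
    exact ⟨hψG, hψ1⟩
  have hYL := hsep Y hYA
  rw [← hYM, hL] at hYL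
  obtain ⟨φ, hφ, hφδ⟩ := hYL
  have hφ' : (φ : MulAut P) ∈ G ⊓ TT K1 ⊓ H := Subgroup.mem_subgroupOf.1 hφ
  -- the difference
  obtain ⟨χ, hχ⟩ : ∃ χ : TT (K.lowerCentralSeries c), χ = φ⁻¹ * ⟨ψ, hψc⟩ := ⟨_, rfl⟩
  have hχδ : δ χ = 1 := by
    rw [hχ, map_mul, map_inv, hφδ, inv_mul_cancel]
  have hχc : Triv (K.lowerCentralSeries (c + 1)) (χ : MulAut P) := by
    have h1 : Subgroup.closure (S : Set P) ≤
        fixm (K.lowerCentralSeries (c + 1)) hR (χ : MulAut P) := by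
      rw [Subgroup.closure_le]
      intro s hs
      show (χ : MulAut P) s * s⁻¹ ∈ K.lowerCentralSeries (c + 1)
      rw [← hqk]
      have h2 := hδ χ ⟨s, hs⟩
      rw [hχδ] at h2
      exact h2.symm
    rw [hS] at h1
    intro x
    exact h1 (Subgroup.mem_top x)
  have hχψ : (χ : MulAut P) = (φ : MulAut P)⁻¹ * ψ := by
    rw [hχ]
    rfl
  have hχH : (χ : MulAut P) ∈ H := by
    refine hK1 _ ?_ ?_ hχc
    · rw [hχψ]
      exact G.mul_mem (G.inv_mem hφ'.1.1) hψG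
    · rw [← mem_TT, hχψ]
      exact (TT K1).mul_mem ((TT K1).inv_mem hφ'.1.2) hψ1
  have h2 : ψ = (φ : MulAut P) * (χ : MulAut P) := by
    rw [hχψ, mul_inv_cancel_left]
  rw [h2]
  exact H.mul_mem hφ'.2 hχH

/-- from any level down to the kernel of the action on `P / [K, K]` -/
theorem down2 [Group.FG P] (K : Subgroup P) (hK : K.Normal) (hKf : K.FiniteIndex)
    (G H : Subgroup (MulAut P)) (e : ℕ) (he : 0 < e)
    (hGH : ∀ a ∈ G, a ^ e ∈ H) (c : ℕ) (h : PK K G H c) : PK K G H 1 := by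
  induction c with
  | zero =>
    obtain ⟨C, h1, h2, h3⟩ := h
    refine ⟨C, h1, h2, fun ψ hψ hC hψ1 => h3 ψ hψ hC (fun x => ?_)⟩
    exact K.lowerCentralSeries_antitone (Nat.zero_le 1) (hψ1 x)
  | succ c ih =>
    rcases Nat.eq_zero_or_pos c with rfl | hc
    · exact h
    · exact ih (step2 K hK hKf c hc G H e he hGH h)

end Pool.Agent.TH674.JK
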