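import Pool.Agent.TH674.JK.Step

/-!
# From the Torelli group to the whole automorphism group; outer automorphisms
-/

set_option autoImplicit false

namespace Pool.Agent.TH674.JK

variable {P : Type} [Group P]

theorem char_map {K : Subgroup P} (hK : K.Characteristic) (g : MulAut P) {x : P} (hx : x ∈ K) :
    g x ∈ K := by
  rw [Subgroup.characteristic_iff_le_comap] at hK
  exact hK g hx

theorem TT_normal (K : Subgroup P) (hK : K.Characteristic) : (TT K).Normal := by
  refine ⟨fun ψ hψ g => ?_⟩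
  intro x
  have h2 : g (ψ (g⁻¹ x) * (g⁻¹ x)⁻¹) ∈ K := char_map hK g (hψ (g⁻¹ x))
  rwa [map_mul, map_inv, MulAut.apply_inv_self] at h2

/-- the action on the quotient by a characteristic subgroup -/
def act (K : Subgroup P) [K.Normal] (hK : K.Characteristic) : MulAut P →* MulAut (P ⧸ K) where
  toFun ψ := QuotientGroup.congr K K ψ (Subgroup.characteristic_iff_map_eq.1 hK ψ)
  map_one' := by
    ext x
    induction x using QuotientGroup.induction_on
    rfl
  map_mul' ψ φ := by
    ext x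
    induction x using QuotientGroup.induction_on
    rfl

theorem TT_finiteIndex (K : Subgroup P) (hK : K.Characteristic) (hf : K.FiniteIndex) :
    (TT K).FiniteIndex := by
  have hn : K.Normal := inferInstance
  have h1 : Finite (P ⧸ K) := Subgroup.finite_quotient_of_finiteIndex
  have h2 : Finite (MulAut (P ⧸ K)) := inferInstance
  have h3 : (act K hK).ker.FiniteIndex := inferInstance
  refine Subgroup.finiteIndex_of_le (H := (act K hK).ker) ?_
  intro ψ hψ x
  rw [MonoidHom.mem_ker] at hψ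
  have h4 : (act K hK ψ) (QuotientGroup.mk x) = QuotientGroup.mk x := by
    rw [hψ]
    rfl
  have h5 : (QuotientGroup.mk (ψ x) : P ⧸ K) = QuotientGroup.mk x := h4
  rw [QuotientGroup.eq_iff_div_mem, div_eq_mul_inv] at h5
  exact h5

/-- a finite-index subgroup contains the powers for a fixed exponent -/
theorem exp_of_relIndex {A : Type} [Group A] (G H : Subgroup A) (h : H.relIndex G ≠ 0) :
    ∃ e : ℕ, 0 < e ∧ ∀ a ∈ G, a ^ e ∈ H := by
  refine ⟨(H.relIndex G).factorial, Nat.factorial_pos _, fun a ha => ?_⟩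
  exact (Subgroup.pow_mem_of_relIndex_ne_zero_of_dvd h ha
    (fun m hm hm' => Nat.dvd_factorial hm hm')).1

theorem top [Group.FG P] (G H : Subgroup (MulAut P)) (hHG : H ≤ G) (hfin : H.relIndex G ≠ 0)
    (h1 : PC G H 1)
    (hW : ∀ W : Subgroup (MulAut P), W.relIndex G ≠ 0 → TT (gam P 1) ≤ W → PC G W 0) :
    PC G H 0 := by
  obtain ⟨K1, hK1c, hK1f, hK1⟩ := h1
  have hn : (TT (gam P 1)).Normal := TT_normal _ inferInstance
  have hfi : (TT K1).FiniteIndex := TT_finiteIndex K1 hK1c hK1f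
  have hrel : (H ⊓ TT K1).relIndex G ≠ 0 := by
    refine Subgroup.relIndex_inf_ne_zero hfin ?_
    have hn1 : (TT K1).Normal := TT_normal _ hK1c
    exact ne_zero_of_dvd_ne_zero hfi.index_ne_zero (Subgroup.relIndex_dvd_index_of_normal _ _)
  have hrelW : ((H ⊓ TT K1) ⊔ TT (gam P 1)).relIndex G ≠ 0 :=
    ne_zero_of_dvd_ne_zero hrel (Subgroup.relIndex_dvd_of_le_left G le_sup_left)
  obtain ⟨K', hK'c, hK'f, hK'⟩ := hW _ hrelW le_sup_right
  refine ⟨K1 ⊓ K', inf_char _ _ hK1c hK'c, inferInstance, ?_⟩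
  intro ψ hψG hψK hψ0
  have hψ1 : ψ ∈ TT K1 := fun x => (hψK x).1
  have hψW := hK' ψ hψG (fun x => (hψK x).2) hψ0
  rw [Subgroup.mem_sup_of_normal_right] at hψW
  obtain ⟨a, ha, t, ht, rfl⟩ := hψW
  have htt : t = a⁻¹ * (a * t) := by group
  have htG : t ∈ G := by
    rw [htt]
    exact G.mul_mem (G.inv_mem (hHG ha.1)) hψG
  have htK : t ∈ TT K1 := by
    rw [htt]
    exact (TT K1).mul_mem ((TT K1).inv_mem ha.2) hψ1
  exact H.mul_mem ha.1 (hK1 t htG htK ht)

/-- inner automorphisms act trivially on the abelianisation -/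
theorem conj_triv (h : P) : MulAut.conj h ∈ TT (gam P 1) := by
  intro x
  have h1 : gam P 1 = commutator P := Subgroup.top_lowerCentralSeries_one
  rw [h1, MulAut.conj_apply]
  exact Subgroup.commutator_mem_commutator (Subgroup.mem_top h) (Subgroup.mem_top x)

/-- passing to outer automorphisms -/
theorem outer (G H : Subgroup (MulAut P)) (hHG : H ≤ G) (hI : ∀ x : P, MulAut.conj x ∈ H) (c : ℕ)
    (hc : c ≤ 1) (h : PC G H c) :
    ∃ K : Subgroup P, K.Characteristic ∧ K.FiniteIndex ∧ ∀ φ ∈ G,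
      (∃ h : P, ∀ x : P, φ x * (h * x * h⁻¹)⁻¹ ∈ K) → Triv (gam P c) φ → φ ∈ H := by
  obtain ⟨K, hKc, hKf, hK⟩ := h
  have hn : K.Normal := inferInstance
  refine ⟨K, hKc, hKf, ?_⟩
  rintro φ hφ ⟨h, hh⟩ hφc
  have h1 : (MulAut.conj h)⁻¹ * φ ∈ H := by
    refine hK _ (G.mul_mem (G.inv_mem (hHG (hI h))) hφ) ?_ ?_
    · intro x
      have h2 := hn.conj_mem _ (hh x) h⁻¹
      have h3 : ((MulAut.conj h)⁻¹ * φ) x * x⁻¹ =
          h⁻¹ * (φ x * (h * x * h⁻¹)⁻¹) * h⁻¹⁻¹ := by
        rw [MulAut.mul_apply, MulAut.conj_inv_apply]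
        group
      rw [h3]
      exact h2
    · rw [← mem_TT]
      have h4 : MulAut.conj h ∈ TT (gam P c) := by
        intro x
        exact Subgroup.lowerCentralSeries_antitone _ hc (conj_triv h x)
      exact (TT _).mul_mem ((TT _).inv_mem h4) hφc
  have h5 : φ = MulAut.conj h * ((MulAut.conj h)⁻¹ * φ) := by group
  rw [h5]
  exact H.mul_mem (hI h) h1

end Pool.Agent.TH674.JK
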